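import Pool.Agent.H76.SD.Targets

/-!
# SETH for semidefinite programming: module SPE (spectral inequalities)
-/

namespace Pool.Agent.H91.SD

open Finset Matrix
open Pool.Agent.H76.SD

/-- diagonalisation of a real symmetric matrix -/
lemma spe_diag {r : ℕ} (M : Matrix (Fin r) (Fin r) ℝ) (hM : M.IsHermitian) :
    ∃ (U : Matrix (Fin r) (Fin r) ℝ) (la : Fin r → ℝ), U * Uᴴ = 1 ∧ Uᴴ * U = 1 ∧
      M = U * diagonal la * Uᴴ := by
  refine ⟨(hM.eigenvectorUnitary : Matrix (Fin r) (Fin r) ℝ), hM.eigenvalues, ?_, ?_, ?_⟩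
  · have := (Matrix.mem_unitaryGroup_iff).1 (hM.eigenvectorUnitary).2
    simpa [star_eq_conjTranspose] using this
  · have := (Matrix.mem_unitaryGroup_iff').1 (hM.eigenvectorUnitary).2
    simpa [star_eq_conjTranspose] using this
  · have := hM.spectral_theorem
    rw [Unitary.conjStarAlgAut_apply] at this
    conv_lhs => rw [this]
    simp [star_eq_conjTranspose]

lemma spe_pow {r : ℕ} (U : Matrix (Fin r) (Fin r) ℝ) (hU : U * Uᴴ = 1) (hU' : Uᴴ * U = 1)
    (d : Fin r → ℝ) (n : ℕ) :
    (U * diagonal d * Uᴴ) ^ n = U * diagonal (fun i => d i ^ n) * Uᴴ := by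
  induction n with
  | zero =>
    have : diagonal (fun i => d i ^ 0) = (1 : Matrix (Fin r) (Fin r) ℝ) := by
      simp only [pow_zero]; exact diagonal_one
    rw [this, pow_zero, Matrix.mul_one, hU]
  | succ n ih =>
    rw [pow_succ, ih]
    calc U * diagonal (fun i => d i ^ n) * Uᴴ * (U * diagonal d * Uᴴ)
        = U * diagonal (fun i => d i ^ n) * (Uᴴ * U) * diagonal d * Uᴴ := by
          simp only [Matrix.mul_assoc]
      _ = U * (diagonal (fun i => d i ^ n) * diagonal d) * Uᴴ := by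
          rw [hU', Matrix.mul_one]; simp only [Matrix.mul_assoc]
      _ = _ := by
          rw [diagonal_mul_diagonal]
          simp only [pow_succ]

lemma spe_trace {r : ℕ} (U : Matrix (Fin r) (Fin r) ℝ) (hU' : Uᴴ * U = 1)
    (d : Fin r → ℝ) : (U * diagonal d * Uᴴ).trace = ∑ i, d i := by
  rw [Matrix.trace_mul_comm, ← Matrix.mul_assoc, hU', Matrix.one_mul, trace_diagonal]

lemma spe_psd {r : ℕ} (U : Matrix (Fin r) (Fin r) ℝ) (hU' : Uᴴ * U = 1)
    (d : Fin r → ℝ) : (U * diagonal d * Uᴴ).PosSemidef ↔ ∀ i, 0 ≤ d i := by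
  constructor
  · intro h i
    have h1 := h.conjTranspose_mul_mul_same U
    have h2 : Uᴴ * (U * diagonal d * Uᴴ) * U = diagonal d := by
      calc Uᴴ * (U * diagonal d * Uᴴ) * U = (Uᴴ * U) * diagonal d * (Uᴴ * U) := by
            simp only [Matrix.mul_assoc]
        _ = _ := by rw [hU', Matrix.one_mul, Matrix.mul_one]
    rw [h2] at h1
    exact (posSemidef_diagonal_iff.1 h1) i
  · intro h
    exact (posSemidef_diagonal_iff.2 h).mul_mul_conjTranspose_same U

lemma spe_lin {r : ℕ} (U : Matrix (Fin r) (Fin r) ℝ) (hU : U * Uᴴ = 1)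
    (a : ℝ) : a • (1 : Matrix (Fin r) (Fin r) ℝ) = U * diagonal (fun _ => a) * Uᴴ := by
  have : diagonal (fun _ : Fin r => a) = a • (1 : Matrix (Fin r) (Fin r) ℝ) := by
    rw [smul_one_eq_diagonal]
  rw [this, Matrix.mul_smul, Matrix.mul_one, Matrix.smul_mul, hU]

theorem spe : T_SPE := by
  intro r k M La ε hε hεLa h1 h2
  have hM : M.IsHermitian := by
    have h3 : M = La • (1 : Matrix (Fin r) (Fin r) ℝ) - (La • (1 : Matrix (Fin r) (Fin r) ℝ) - M) := by
      abel
    rw [h3]
    refine IsHermitian.sub ?_ h1.1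
    unfold IsHermitian
    simp
  obtain ⟨U, la, hU, hU', hd⟩ := spe_diag M hM
  have hm : La • (1 : Matrix (Fin r) (Fin r) ℝ) - M = U * diagonal (fun i => La - la i) * Uᴴ := by
    rw [spe_lin U hU La, hd, ← Matrix.sub_mul, ← Matrix.mul_sub, diagonal_sub]
  have hp : ∀ a : ℝ, a • (1 : Matrix (Fin r) (Fin r) ℝ) + M =
      U * diagonal (fun i => a + la i) * Uᴴ := by
    intro a
    rw [spe_lin U hU a, hd, ← Matrix.add_mul, ← Matrix.mul_add, diagonal_add]
  rw [hm, spe_psd U hU'] at h1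
  rw [hp, spe_psd U hU'] at h2
  have htr : ((La • (1 : Matrix (Fin r) (Fin r) ℝ) - M) ^ (2 * k)).trace =
      ∑ i, (La - la i) ^ (2 * k) := by
    rw [hm, spe_pow U hU hU', spe_trace U hU']
  have htm : (M * (La • (1 : Matrix (Fin r) (Fin r) ℝ) - M) ^ (2 * k)).trace =
      ∑ i, la i * (La - la i) ^ (2 * k) := by
    rw [hm, spe_pow U hU hU']
    have : M * (U * diagonal (fun i => (La - la i) ^ (2 * k)) * Uᴴ) =
        U * diagonal (fun i => la i * (La - la i) ^ (2 * k)) * Uᴴ := by
      conv_lhs => rw [hd]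
      calc U * diagonal la * Uᴴ * (U * diagonal (fun i => (La - la i) ^ (2 * k)) * Uᴴ)
          = U * diagonal la * (Uᴴ * U) * diagonal (fun i => (La - la i) ^ (2 * k)) * Uᴴ := by
            simp only [Matrix.mul_assoc]
        _ = U * (diagonal la * diagonal (fun i => (La - la i) ^ (2 * k))) * Uᴴ := by
            rw [hU', Matrix.mul_one]; simp only [Matrix.mul_assoc]
        _ = _ := by rw [diagonal_mul_diagonal]
    rw [this, spe_trace U hU']
  have hLa : 0 < La := lt_of_lt_of_le hε hεLa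
  have hev : ∀ x : ℝ, 0 ≤ x ^ (2 * k) := fun x => by
    rw [pow_mul]; exact pow_nonneg (sq_nonneg x) k
  refine ⟨?_, ?_, ?_⟩
  · rw [htr]
    exact Finset.sum_nonneg fun i _ => hev _
  · rw [htr, htm, Finset.mul_sum, ← Finset.sum_add_distrib]
    have hb : ∀ i ∈ (Finset.univ : Finset (Fin r)),
        la i * (La - la i) ^ (2 * k) + ε / 2 * (La - la i) ^ (2 * k) ≤
          2 * La * (La + ε / 2) ^ (2 * k) := by
      intro i _
      rw [← add_mul]
      by_cases hc : la i ≤ -(ε / 2)
      · have : (la i + ε / 2) * (La - la i) ^ (2 * k) ≤ 0 :=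
          mul_nonpos_of_nonpos_of_nonneg (by linarith) (hev _)
        have h4 : 0 ≤ 2 * La * (La + ε / 2) ^ (2 * k) := mul_nonneg (by linarith) (hev _)
        linarith
      · push Not at hc
        have h3 := h1 i
        refine mul_le_mul (by linarith) ?_ (hev _) (by linarith)
        exact pow_le_pow_left₀ h3 (by linarith) _
    calc ∑ i, (la i * (La - la i) ^ (2 * k) + ε / 2 * (La - la i) ^ (2 * k))
        ≤ ∑ _i : Fin r, 2 * La * (La + ε / 2) ^ (2 * k) := Finset.sum_le_sum hb
      _ = 2 * La * r * (La + ε / 2) ^ (2 * k) := by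
          rw [Finset.sum_const, Finset.card_univ, Fintype.card_fin, nsmul_eq_mul]; ring
  · intro hn
    rw [hp, spe_psd U hU'] at hn
    push Not at hn
    obtain ⟨i, hi⟩ := hn
    rw [htr]
    calc (La + ε) ^ (2 * k) ≤ (La - la i) ^ (2 * k) :=
          pow_le_pow_left₀ (by linarith) (by linarith) _
      _ ≤ _ := Finset.single_le_sum (f := fun i => (La - la i) ^ (2 * k))
          (fun j _ => hev _) (Finset.mem_univ i)

end Pool.Agent.H91.SD
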