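import Pool.Agent.H76.SD.Targets

/-!
# SETH for semidefinite programming: module SPN (powers are sums of sparse characters)
-/

namespace Pool.Agent.H91.SD

open Finset
open Pool.Agent.H76.SD
open Pool.Agent.H1.LP (Loc PD Viol Sys supp ip val Agree FS Typ kk)

set_option linter.unusedSectionVars false

section
variable {p B r : ℕ} [Fact p.Prime] {Q : Type} [Fintype Q] [DecidableEq Q]

/-- combinations of sparse characters with matrix coefficients -/
def IsC (k : ℕ) (F : (Fin B → Q → ZMod p) → Matrix (Fin r) (Fin r) ℂ) : Prop :=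
  ∃ c : (Fin B → Q → ZMod p) → Matrix (Fin r) (Fin r) ℂ, ∀ al,
    F al = ∑ ga ∈ spf p B k Q, chr ga al • c ga

lemma tp_add (ga ga' al : Fin B → Q → ZMod p) : tp (ga + ga') al = tp ga al + tp ga' al := by
  unfold tp
  rw [← Finset.sum_add_distrib]
  refine Finset.sum_congr rfl fun j _ => ?_
  rw [← Finset.sum_add_distrib]
  refine Finset.sum_congr rfl fun q _ => ?_
  simp only [Pi.add_apply]; ring

lemma chr_add (ga ga' al : Fin B → Q → ZMod p) : chr (ga + ga') al = chr ga al * chr ga' al := by
  unfold chr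
  rw [tp_add, AddChar.map_add_eq_mul]

lemma chr_zero' (al : Fin B → Q → ZMod p) : chr 0 al = 1 := by
  unfold chr tp
  simp

lemma isC_add {k : ℕ} {F G : (Fin B → Q → ZMod p) → Matrix (Fin r) (Fin r) ℂ}
    (hF : IsC k F) (hG : IsC k G) : IsC k (fun al => F al + G al) := by
  obtain ⟨c, hc⟩ := hF
  obtain ⟨c', hc'⟩ := hG
  refine ⟨fun ga => c ga + c' ga, fun al => ?_⟩
  simp only [hc al, hc' al, smul_add, Finset.sum_add_distrib]

lemma isC_single {k : ℕ} {ga : Fin B → Q → ZMod p} (hga : Sparse k ga)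
    (A : Matrix (Fin r) (Fin r) ℂ) : IsC k (fun al => chr ga al • A) := by
  classical
  refine ⟨fun g => if g = ga then A else 0, fun al => ?_⟩
  have hm : ga ∈ spf p B k Q := by
    unfold spf; simp [hga]
  rw [Finset.sum_eq_single_of_mem ga hm]
  · simp
  · intro b _ hb
    simp [hb]

lemma isC_zero {k : ℕ} : IsC k (fun _ : (Fin B → Q → ZMod p) => (0 : Matrix (Fin r) (Fin r) ℂ)) :=
  ⟨fun _ => 0, fun al => by simp⟩

lemma isC_sum {k : ℕ} {ι : Type*} (s : Finset ι)
    (F : ι → (Fin B → Q → ZMod p) → Matrix (Fin r) (Fin r) ℂ)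
    (h : ∀ i ∈ s, IsC k (F i)) : IsC k (fun al => ∑ i ∈ s, F i al) := by
  classical
  induction s using Finset.induction_on with
  | empty => simpa using isC_zero
  | insert a s ha ih =>
    have h1 := isC_add (h a (Finset.mem_insert_self a s))
      (ih fun i hi => h i (Finset.mem_insert_of_mem hi))
    simpa [Finset.sum_insert ha] using h1

lemma sparse_add {k l : ℕ} {ga ga' : Fin B → Q → ZMod p} (h : Sparse k ga) (h' : Sparse l ga') :
    Sparse (k + l) (ga + ga') := by
  intro j
  refine le_trans (Finset.card_le_card ?_) (le_trans (Finset.card_union_le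
    (univ.filter (fun q => ga j q ≠ 0)) (univ.filter (fun q => ga' j q ≠ 0)))
    (Nat.add_le_add (h j) (h' j)))
  intro q hq
  simp only [Finset.mem_union, Finset.mem_filter, Finset.mem_univ, true_and] at hq ⊢
  by_contra hc
  push Not at hc
  apply hq
  simp [hc.1, hc.2]

lemma isC_mul {k l : ℕ} {F G : (Fin B → Q → ZMod p) → Matrix (Fin r) (Fin r) ℂ}
    (hF : IsC k F) (hG : IsC l G) : IsC (k + l) (fun al => F al * G al) := by
  obtain ⟨c, hc⟩ := hF
  obtain ⟨c', hc'⟩ := hG
  have h1 : (fun al => F al * G al) = fun al => ∑ ga ∈ spf p B k Q, ∑ ga' ∈ spf p B l Q,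
      chr (ga + ga') al • (c ga * c' ga') := by
    funext al
    rw [hc al, hc' al, Finset.sum_mul_sum]
    refine Finset.sum_congr rfl fun ga _ => Finset.sum_congr rfl fun ga' _ => ?_
    rw [smul_mul_smul_comm, chr_add]
  rw [h1]
  refine isC_sum _ _ fun ga hga => isC_sum _ _ fun ga' hga' => isC_single ?_ _
  refine sparse_add ?_ ?_
  · unfold spf at hga; simpa using hga
  · unfold spf at hga'; simpa using hga'

/-- frequency of the linear form `l` at the point `x` -/
def frq (l : Fin B → ZMod p) (x : Fin B → Q) : Fin B → Q → ZMod p :=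
  fun j q => if q = x j then l j else 0

lemma tp_frq (l : Fin B → ZMod p) (x : Fin B → Q) (al : Fin B → Q → ZMod p) :
    tp (frq l x) al = ip l (Pool.Agent.H1.LP.val al x) := by
  unfold tp frq ip Pool.Agent.H1.LP.val
  refine Finset.sum_congr rfl fun j _ => ?_
  simp [ite_mul, Finset.sum_ite_eq']

lemma sparse_frq (l : Fin B → ZMod p) (x : Fin B → Q) : Sparse 1 (frq l x) := by
  intro j
  have : (univ.filter (fun q => frq l x j q ≠ 0)) ⊆ {x j} := by
    intro q hq
    simp only [Finset.mem_filter, Finset.mem_univ, true_and, frq] at hq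
    simp only [Finset.mem_singleton]
    by_contra hc
    exact hq (if_neg hc)
  simpa using Finset.card_le_card this

lemma sparse_zero {k : ℕ} : Sparse k (0 : Fin B → Q → ZMod p) := by
  intro j; simp

lemma sparse_neg {k : ℕ} {ga : Fin B → Q → ZMod p} (h : Sparse k ga) : Sparse k (-ga) := by
  intro j
  simpa using h j

lemma tp_neg (ga al : Fin B → Q → ZMod p) : tp (-ga) al = - tp ga al := by
  unfold tp
  simp [Finset.sum_neg_distrib]

lemma re_std (a : ZMod p) (u : ZMod p) :
    (((ZMod.stdAddChar (u - a) : ℂ).re : ℝ) : ℂ) =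
      ZMod.stdAddChar u * (ZMod.stdAddChar (-a) / 2) +
        ZMod.stdAddChar (-u) * (ZMod.stdAddChar a / 2) := by
  have h1 : (starRingEnd ℂ) (ZMod.stdAddChar (u - a)) = ZMod.stdAddChar (-(u - a)) := by
    rw [← AddChar.map_neg_eq_conj]
  rw [Complex.re_eq_add_conj, h1, sub_eq_add_neg, AddChar.map_add_eq_mul]
  have : -(u + -a) = -u + a := by ring
  rw [this, AddChar.map_add_eq_mul]
  ring

lemma isC_base {d : ℕ} (S : Loc p B d) (V : (Fin B → Q) → Matrix (Fin r) (Fin r) ℝ) (La : ℝ) :
    IsC 1 (fun al : Fin B → Q → ZMod p =>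
      (La • (1 : Matrix (Fin r) (Fin r) ℝ) - MM S V al).map (fun t : ℝ => (t : ℂ))) := by
  have h1 : (fun al : Fin B → Q → ZMod p =>
      (La • (1 : Matrix (Fin r) (Fin r) ℝ) - MM S V al).map (fun t : ℝ => (t : ℂ))) =
      fun al => chr 0 al • (La • (1 : Matrix (Fin r) (Fin r) ℝ)).map (fun t : ℝ => (t : ℂ)) +
        ∑ x, ∑ l ∈ S.La,
          (chr (frq l x) al • ((-(ZMod.stdAddChar (-(S.ga l)) / 2 : ℂ)) •
              (V x).map (fun t : ℝ => (t : ℂ))) +
            chr (-(frq l x)) al • ((-(ZMod.stdAddChar (S.ga l) / 2 : ℂ)) •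
              (V x).map (fun t : ℝ => (t : ℂ)))) := by
    funext al
    ext i j
    simp only [Matrix.map_apply, Matrix.sub_apply, Matrix.add_apply, Matrix.smul_apply,
      Matrix.sum_apply, smul_eq_mul, chr_zero', one_mul, Complex.ofReal_sub, MM,
      Complex.ofReal_sum, Complex.ofReal_mul, PD]
    rw [sub_eq_add_neg, ← Finset.sum_neg_distrib]
    congr 1
    refine Finset.sum_congr rfl fun x _ => ?_
    rw [Finset.sum_mul, ← Finset.sum_neg_distrib]
    refine Finset.sum_congr rfl fun l _ => ?_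
    rw [re_std]
    unfold chr
    rw [tp_neg, tp_frq]
    ring
  rw [h1]
  refine isC_add (isC_single sparse_zero _) ?_
  refine isC_sum _ _ fun x _ => isC_sum _ _ fun l _ => ?_
  exact isC_add (isC_single (sparse_frq l x) _) (isC_single (sparse_neg (sparse_frq l x)) _)

end

theorem spn : T_SPN := by
  intro p B d r k _ Q _ _ S V La
  have hmap : ∀ (A : Matrix (Fin r) (Fin r) ℝ) (n : ℕ),
      (A ^ n).map (fun t : ℝ => (t : ℂ)) = (A.map (fun t : ℝ => (t : ℂ))) ^ n := by
    intro A n
    exact map_pow (Complex.ofRealHom.mapMatrix (m := Fin r)) A n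
  have key : IsC k (fun al : Fin B → Q → ZMod p =>
      ((La • (1 : Matrix (Fin r) (Fin r) ℝ) - MM S V al) ^ k).map (fun t : ℝ => (t : ℂ))) := by
    induction k with
    | zero =>
      have h0 : (fun al : Fin B → Q → ZMod p =>
          ((La • (1 : Matrix (Fin r) (Fin r) ℝ) - MM S V al) ^ 0).map (fun t : ℝ => (t : ℂ))) =
          fun al => chr 0 al • (1 : Matrix (Fin r) (Fin r) ℂ) := by
        funext al
        rw [hmap, pow_zero, chr_zero', one_smul]
      rw [h0]
      exact isC_single sparse_zero _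
    | succ k ih =>
      have h1 := isC_mul ih (isC_base S V La)
      have h2 : (fun al : Fin B → Q → ZMod p =>
          ((La • (1 : Matrix (Fin r) (Fin r) ℝ) - MM S V al) ^ (k + 1)).map
            (fun t : ℝ => (t : ℂ))) =
          fun al => ((La • (1 : Matrix (Fin r) (Fin r) ℝ) - MM S V al) ^ k).map
            (fun t : ℝ => (t : ℂ)) *
            (La • (1 : Matrix (Fin r) (Fin r) ℝ) - MM S V al).map (fun t : ℝ => (t : ℂ)) := by
        funext al
        rw [hmap, hmap, pow_succ]
      rw [h2]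
      exact h1
  exact key

end Pool.Agent.H91.SD
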